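import Pool.Agent.Lib.MP_c7af3c_ag.LX.H46.Glue
import Pool.Agent.Lib.MP_c7af3c_ag.T2.H54.Hbe
import Pool.Agent.Lib.MP_c7af3c_ag.T2C.H54.Hbe

/-!
# MP_c7af3c_ag: the final forms of the two main theorems
-/

set_option autoImplicit false

namespace Pool.Agent.LX.H46

open AlgebraicGeometry CategoryTheory CategoryTheory.Limits
open MvPolynomial (homogeneousSubmodule)
open Pool.Agent.Gen Pool.Agent.GenY.H46 Pool.Agent.Sharp Pool.Agent.Sharp.H54
open Pool.Agent.Lines.H46 Pool.Agent.Lines.H19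
open Pool.Agent.LX

/-- The height inequality for all threefolds with `K = O(1)`, from the case `c = 1` and the case
`c ≥ 2`. -/
theorem t2_all (h1 : ∀ j0 : Fin (4 + 1), Edge.HBE 4 1 (fun _ => 6) j0)
    (h2 : ∀ (n c : ℕ) (d : Fin c → ℕ), 2 ≤ c → (∀ m, 2 ≤ d m) → n = c + 3 → ∑ m, d m = n + 2 →
      ∀ j0 : Fin (n + 1), Edge.HBE n c d j0) : T2Statement fun _ => True := by
  intro n c d _ hd hn hs j0
  rcases Nat.lt_or_ge c 2 with hc | hc
  · rcases Nat.lt_or_ge c 1 with hc0 | hc0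
    · obtain rfl : c = 0 := by omega
      rw [Finset.univ_eq_empty, Finset.sum_empty] at hs
      omega
    · exact t2_one h1 n c d (by omega) hd hn hs j0
  · exact h2 n c d hc hd hn hs j0

section

attribute [local instance] MvPolynomial.gradedAlgebra

theorem t3All_of (T : T2Statement fun _ => True) (k : Type) [Field k] [IsAlgClosed k] [CharZero k]
    (n c : ℕ) (d : Fin c → ℕ) (F : Fin c → MvPolynomial (Fin (n + 1)) k)
    (hF : ∀ m, (F m).IsHomogeneous (d m))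
    (ha : AlgebraicIndependent ℤ (fun s : Ix (M := n) d => MvPolynomial.coeff s.1.2 (F s.1.1)))
    (hd : ∀ m, 2 ≤ d m) (hdim : c + 2 ≤ n)
    (Y : Over (Spec (CommRingCat.of k))) (i : Y.left ⟶ Ell.PP k n) (hi : IsClosedImmersion i)
    (hiY : i ≫ projStr k n = Y.hom)
    (hset : ∀ p : Ell.PP k n, (∀ m, F m ∈ p.asHomogeneousIdeal) ↔ p ∈ Set.range i.base) :
    (IsGL k Y ↔ IsAH k Y) ∧
    (IsGL k Y ↔ 2 * n ≤ c + ∑ m, d m + 1 ∧ ¬ (n = c + 2 ∧ ∑ m, d m = n + 1)) :=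
  t3T T k n c d F hF ha hd hdim (fun _ _ => trivial) Y i hi hiY hset

theorem closedAll_of (T : T2Statement fun _ => True)
    (k : Type) [Field k] [IsAlgClosed k] [CharZero k]
    (n c : ℕ) (d : Fin c → ℕ) (F : Fin c → MvPolynomial (Fin (n + 1)) k)
    (hF : ∀ m, (F m).IsHomogeneous (d m))
    (ha : AlgebraicIndependent ℤ (fun s : Ix (M := n) d => MvPolynomial.coeff s.1.2 (F s.1.1)))
    (hd : ∀ m, 1 ≤ d m)
    (h : (∃ e, 2 * n + 1 ≤ c + ∑ m, d m + e ∧ 2 * e + c ≤ n ∧ c < n) ∨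
      ((∀ m, 2 ≤ d m) ∧ n = c + 3 ∧ ∑ m, d m = n + 2))
    (Y : Over (Spec (CommRingCat.of k))) (i : Y.left ⟶ Ell.PP k n) (hi : IsClosedImmersion i)
    (hiY : i ≫ projStr k n = Y.hom)
    (hFY : ∀ m, ∀ y : Y.left, F m ∈ (i.base y).asHomogeneousIdeal) :
    (IsGL k Y ↔ IsAH k Y) ∧ (IsGL k Y ↔ ¬ HasLine i) ∧
    (2 * n ≤ c + ∑ m, d m + 1 → ¬ HasLine i) ∧
    (IsGL k Y → ∀ (X : Over (Spec (CommRingCat.of k))) (f : X ⟶ Y),
      LocallyOfFiniteType X.hom → QuasiCompact X.hom →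
      (∀ y : Spec (CommRingCat.of k) ⟶ Y.left,
        {x : Spec (CommRingCat.of k) ⟶ X.left | x ≫ X.hom = 𝟙 _ ∧ x ≫ f.left = y}.Finite) →
      IsGL k X ∧ IsAH k X) :=
  mainClosedT T k n c d F hF ha hd (h.imp_right fun h => ⟨trivial, h⟩) Y i hi hiY hFY

/-- The height inequality for all very general threefolds with `K = O(1)`. -/
theorem t2True : T2Statement fun _ => True :=
  t2_all Pool.Agent.T2.H54.hbe Pool.Agent.T2C.H54.hbe

theorem t3All (k : Type) [Field k] [IsAlgClosed k] [CharZero k]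
    (n c : ℕ) (d : Fin c → ℕ) (F : Fin c → MvPolynomial (Fin (n + 1)) k)
    (hF : ∀ m, (F m).IsHomogeneous (d m))
    (ha : AlgebraicIndependent ℤ (fun s : Ix (M := n) d => MvPolynomial.coeff s.1.2 (F s.1.1)))
    (hd : ∀ m, 2 ≤ d m) (hdim : c + 2 ≤ n)
    (Y : Over (Spec (CommRingCat.of k))) (i : Y.left ⟶ Ell.PP k n) (hi : IsClosedImmersion i)
    (hiY : i ≫ projStr k n = Y.hom)
    (hset : ∀ p : Ell.PP k n, (∀ m, F m ∈ p.asHomogeneousIdeal) ↔ p ∈ Set.range i.base) :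
    (IsGL k Y ↔ IsAH k Y) ∧
    (IsGL k Y ↔ 2 * n ≤ c + ∑ m, d m + 1 ∧ ¬ (n = c + 2 ∧ ∑ m, d m = n + 1)) :=
  t3All_of t2True k n c d F hF ha hd hdim Y i hi hiY hset

theorem closedAll (k : Type) [Field k] [IsAlgClosed k] [CharZero k]
    (n c : ℕ) (d : Fin c → ℕ) (F : Fin c → MvPolynomial (Fin (n + 1)) k)
    (hF : ∀ m, (F m).IsHomogeneous (d m))
    (ha : AlgebraicIndependent ℤ (fun s : Ix (M := n) d => MvPolynomial.coeff s.1.2 (F s.1.1)))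
    (hd : ∀ m, 1 ≤ d m)
    (h : (∃ e, 2 * n + 1 ≤ c + ∑ m, d m + e ∧ 2 * e + c ≤ n ∧ c < n) ∨
      ((∀ m, 2 ≤ d m) ∧ n = c + 3 ∧ ∑ m, d m = n + 2))
    (Y : Over (Spec (CommRingCat.of k))) (i : Y.left ⟶ Ell.PP k n) (hi : IsClosedImmersion i)
    (hiY : i ≫ projStr k n = Y.hom)
    (hFY : ∀ m, ∀ y : Y.left, F m ∈ (i.base y).asHomogeneousIdeal) :
    (IsGL k Y ↔ IsAH k Y) ∧ (IsGL k Y ↔ ¬ HasLine i) ∧
    (2 * n ≤ c + ∑ m, d m + 1 → ¬ HasLine i) ∧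
    (IsGL k Y → ∀ (X : Over (Spec (CommRingCat.of k))) (f : X ⟶ Y),
      LocallyOfFiniteType X.hom → QuasiCompact X.hom →
      (∀ y : Spec (CommRingCat.of k) ⟶ Y.left,
        {x : Spec (CommRingCat.of k) ⟶ X.left | x ≫ X.hom = 𝟙 _ ∧ x ≫ f.left = y}.Finite) →
      IsGL k X ∧ IsAH k X) :=
  closedAll_of t2True k n c d F hF ha hd h Y i hi hiY hFY

end

end Pool.Agent.LX.H46
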