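import Pool.Agent.Lib.MP_c7af3c_ag.LX.H87.Rat222

/-!
# MP_c7af3c_ag: from the height inequality of the threefolds with `K = O(1)` to the final forms of
the two main theorems
-/

set_option autoImplicit false

namespace Pool.Agent.LX.H46

open AlgebraicGeometry CategoryTheory CategoryTheory.Limits
open MvPolynomial (homogeneousSubmodule)
open Pool.Agent.Gen Pool.Agent.GenY.H46 Pool.Agent.Sharp Pool.Agent.Sharp.H54
open Pool.Agent.Lines.H46 Pool.Agent.Lines.H19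
open Pool.Agent.LX

/-- Statement: the height inequality for the threefolds with `K = O(1)` which are intersections of
`c` hypersurfaces, for all `c` with `P c`. -/
def T2Statement (P : ℕ → Prop) : Prop := ∀ (n c : ℕ) (d : Fin c → ℕ), P c → (∀ m, 2 ≤ d m) →
  n = c + 3 → ∑ m, d m = n + 2 → ∀ j0 : Fin (n + 1), Edge.HBE n c d j0

/-- One hypersurface: only the sextic threefolds. -/
theorem t2_one (h : ∀ j0 : Fin (4 + 1), Edge.HBE 4 1 (fun _ => 6) j0) :
    T2Statement fun c => c = 1 := by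
  intro n c d hc _ hn hs j0
  subst hc
  obtain rfl : n = 4 := by omega
  obtain rfl : d = fun _ => 6 := by
    funext m
    rw [Subsingleton.elim m 0]
    rw [Fin.sum_univ_one] at hs
    exact hs
  exact h j0

/-- The two height inequalities for the threefolds with `K = O(1)`. -/
theorem both_T2 {P : ℕ → Prop} (T : T2Statement P) (n c : ℕ) (d : Fin c → ℕ) (hP : P c)
    (hd : ∀ m, 2 ≤ d m) (hn : n = c + 3) (hs : ∑ m, d m = n + 2) :
    Edge.H46.HBL (n := n) d ∧ Edge.H46.HBP (n := n) d := by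
  refine ⟨Edge.H46.hbLine4 d ?_, Edge.H46.hbPt3 d fun j0 => T n c d hP hd hn hs j0⟩
  have h1 : ∑ m, (d m + 1) ≤ ∑ m, d m * (d m + 1) / 2 := by
    refine Finset.sum_le_sum fun m _ => ?_
    rw [Nat.le_div_iff_mul_le (by norm_num)]
    have h2 := hd m
    nlinarith
  rw [Finset.sum_add_distrib, Finset.sum_const, Finset.card_univ, Fintype.card_fin, smul_eq_mul,
    mul_one] at h1
  omega

section

attribute [local instance] MvPolynomial.gradedAlgebra

/-- The closed subschemes, final form. -/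
theorem mainClosedT {P : ℕ → Prop} (T : T2Statement P)
    (k : Type) [Field k] [IsAlgClosed k] [CharZero k]
    (n c : ℕ) (d : Fin c → ℕ) (F : Fin c → MvPolynomial (Fin (n + 1)) k)
    (hF : ∀ m, (F m).IsHomogeneous (d m))
    (ha : AlgebraicIndependent ℤ (fun s : Ix (M := n) d => MvPolynomial.coeff s.1.2 (F s.1.1)))
    (hd : ∀ m, 1 ≤ d m)
    (h : (∃ e, 2 * n + 1 ≤ c + ∑ m, d m + e ∧ 2 * e + c ≤ n ∧ c < n) ∨
      (P c ∧ (∀ m, 2 ≤ d m) ∧ n = c + 3 ∧ ∑ m, d m = n + 2))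
    (Y : Over (Spec (CommRingCat.of k))) (i : Y.left ⟶ Ell.PP k n) (hi : IsClosedImmersion i)
    (hiY : i ≫ projStr k n = Y.hom)
    (hFY : ∀ m, ∀ y : Y.left, F m ∈ (i.base y).asHomogeneousIdeal) :
    (IsGL k Y ↔ IsAH k Y) ∧ (IsGL k Y ↔ ¬ HasLine i) ∧
    (2 * n ≤ c + ∑ m, d m + 1 → ¬ HasLine i) ∧
    (IsGL k Y → ∀ (X : Over (Spec (CommRingCat.of k))) (f : X ⟶ Y),
      LocallyOfFiniteType X.hom → QuasiCompact X.hom →
      (∀ y : Spec (CommRingCat.of k) ⟶ Y.left,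
        {x : Spec (CommRingCat.of k) ⟶ X.left | x ≫ X.hom = 𝟙 _ ∧ x ≫ f.left = y}.Finite) →
      IsGL k X ∧ IsAH k X) := by
  rcases h with ⟨e, h1, h2, h3⟩ | ⟨h0, h1, h2, h3⟩
  · exact Edge.C2.H59.mainClosedAll k n c d F hF ha hd e h1 h2 h3 Y i hi hiY hFY
  · obtain ⟨hl, hp⟩ := both_T2 T n c d h0 h1 h2 h3
    exact Edge.H46.mainClosed3 k n c d F hF ha hl hp Y i hi hiY hFY

/-- The whole complete intersection, final form: among the threefolds with `K = O(1)` only those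
with `P c` are included. -/
theorem t3T {P : ℕ → Prop} (T : T2Statement P) (k : Type) [Field k] [IsAlgClosed k] [CharZero k]
    (n c : ℕ) (d : Fin c → ℕ) (F : Fin c → MvPolynomial (Fin (n + 1)) k)
    (hF : ∀ m, (F m).IsHomogeneous (d m))
    (ha : AlgebraicIndependent ℤ (fun s : Ix (M := n) d => MvPolynomial.coeff s.1.2 (F s.1.1)))
    (hd : ∀ m, 2 ≤ d m) (hdim : c + 2 ≤ n) (hT2 : n = c + 3 → ∑ m, d m = n + 2 → P c)
    (Y : Over (Spec (CommRingCat.of k))) (i : Y.left ⟶ Ell.PP k n) (hi : IsClosedImmersion i)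
    (hiY : i ≫ projStr k n = Y.hom)
    (hset : ∀ p : Ell.PP k n, (∀ m, F m ∈ p.asHomogeneousIdeal) ↔ p ∈ Set.range i.base) :
    (IsGL k Y ↔ IsAH k Y) ∧
    (IsGL k Y ↔ 2 * n ≤ c + ∑ m, d m + 1 ∧ ¬ (n = c + 2 ∧ ∑ m, d m = n + 1)) := by
  by_cases h0 : n = c + 3 ∧ ∑ m, d m = n + 2
  · obtain ⟨hl, hp⟩ := both_T2 T n c d (hT2 h0.1 h0.2) hd h0.1 h0.2
    have h1 : 2 * n ≤ c + ∑ m, d m + 1 := by omega
    obtain ⟨h3, h4, h5, -⟩ := Edge.H46.mainClosed3 k n c d F hF ha hl hp Y i hi hiY fun m y =>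
      (hset _).2 ⟨y, rfl⟩ m
    have h6 : IsGL k Y := h4.2 (h5 h1)
    exact ⟨h3, ⟨fun _ => ⟨h1, by omega⟩, fun _ => h6⟩⟩
  · exact t3_of H87.rat222 k n c d F hF ha hd hdim h0 Y i hi hiY hset

end

end Pool.Agent.LX.H46
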