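import Pool.Agent.Lib.MP_c7af3c_ag.LX.H87.Ngl
import Pool.Agent.Lib.MP_c7af3c_ag.LX.H95.Quartic
import Pool.Agent.Lib.MP_c7af3c_ag.LX.H95.K23
import Pool.Agent.Lib.MP_c7af3c_ag.EDGE.C2.H59.HbeAll
import Pool.Agent.Lib.MP_c7af3c_ag.EDGE.H46.Final3

/-!
# MP_c7af3c_ag: the very general K3 complete intersections, assembly
-/

set_option autoImplicit false

namespace Pool.Agent.LX.H46

open AlgebraicGeometry CategoryTheory CategoryTheory.Limits
open MvPolynomial (homogeneousSubmodule)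
open Pool.Agent.Gen Pool.Agent.GenY.H46 Pool.Agent.Sharp Pool.Agent.Sharp.H54
open Pool.Agent.Lines.H46 Pool.Agent.Lines.H19
open Pool.Agent.LX

/-- Statement: the very general intersections of three quadrics in `ℙ^5` contain a rational
curve. -/
def Rat222Statement : Prop := ∀ (k : Type) [Field k] [IsAlgClosed k] [CharZero k]
    (d : Fin 3 → ℕ), (∀ m, d m = 2) → ∀ (F : Fin 3 → MvPolynomial (Fin (5 + 1)) k),
    (∀ m, (F m).IsHomogeneous (d m)) →
    AlgebraicIndependent ℤ
      (fun s : {s : Fin 3 × (Fin (5 + 1) →₀ ℕ) // s.2.degree = d s.1} =>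
        MvPolynomial.coeff s.1.2 (F s.1.1)) →
    H87.RatCurve k 5 F

/-- The type (3,2), from the order-free form of the type (2,3). -/
theorem ratCurve32 (k : Type) [Field k] [IsAlgClosed k] [CharZero k] (d : Fin 2 → ℕ)
    (hd0 : d 0 = 3) (hd1 : d 1 = 2) (F : Fin 2 → MvPolynomial (Fin (4 + 1)) k)
    (hF : ∀ m, (F m).IsHomogeneous (d m))
    (ha : AlgebraicIndependent ℤ
      (fun s : {s : Fin 2 × (Fin (4 + 1) →₀ ℕ) // s.2.degree = d s.1} =>
        MvPolynomial.coeff s.1.2 (F s.1.1))) :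
    H87.RatCurve k 4 F := by
  have h1 : AlgebraicIndependent ℤ (Sum.elim
      (fun μ : {μ : Fin (4 + 1) →₀ ℕ // μ.degree = 2} => MvPolynomial.coeff μ.1 (F 1))
      fun μ : {μ : Fin (4 + 1) →₀ ℕ // μ.degree = 3} => MvPolynomial.coeff μ.1 (F 0)) := by
    have h := ha.comp (Sum.elim (fun μ : {μ : Fin (4 + 1) →₀ ℕ // μ.degree = 2} =>
      (⟨(1, μ.1), μ.2.trans hd1.symm⟩ :
        {s : Fin 2 × (Fin (4 + 1) →₀ ℕ) // s.2.degree = d s.1}))
      (fun μ : {μ : Fin (4 + 1) →₀ ℕ // μ.degree = 3} => ⟨(0, μ.1), μ.2.trans hd0.symm⟩)) ?_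
    · convert h using 1
      funext s
      rcases s with μ | μ <;> rfl
    · rintro (μ | μ) (ν | ν) h
      · exact congrArg Sum.inl (Subtype.ext (congrArg
          (fun s : {s : Fin 2 × (Fin (4 + 1) →₀ ℕ) // s.2.degree = d s.1} => s.1.2) h))
      · exact absurd (congrArg
          (fun s : {s : Fin 2 × (Fin (4 + 1) →₀ ℕ) // s.2.degree = d s.1} => s.1.1) h)
          (by simp)
      · exact absurd (congrArg
          (fun s : {s : Fin 2 × (Fin (4 + 1) →₀ ℕ) // s.2.degree = d s.1} => s.1.1) h)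
          (by simp)
      · exact congrArg Sum.inr (Subtype.ext (congrArg
          (fun s : {s : Fin 2 × (Fin (4 + 1) →₀ ℕ) // s.2.degree = d s.1} => s.1.2) h))
  obtain ⟨φ, h2, h3, h4, h5⟩ := H95.K23.k23 k (F 1) (F 0) (by
    have h := hF 1
    rwa [hd1] at h) (by
    have h := hF 0
    rwa [hd0] at h) h1
  refine ⟨6, φ, h2, fun j => ?_, h5⟩
  fin_cases j
  · exact h4
  · exact h3

/-- All K3 types contain rational curves. -/
theorem ratCurve_of (h222 : Rat222Statement) (k : Type) [Field k] [IsAlgClosed k] [CharZero k]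
    (n c : ℕ) (d : Fin c → ℕ) (F : Fin c → MvPolynomial (Fin (n + 1)) k)
    (hF : ∀ m, (F m).IsHomogeneous (d m))
    (ha : AlgebraicIndependent ℤ (fun s : Ix (M := n) d => MvPolynomial.coeff s.1.2 (F s.1.1)))
    (hd : ∀ m, 2 ≤ d m) (hn : n = c + 2) (hs : ∑ m, d m = n + 1) : H87.RatCurve k n F := by
  have h1 : ∑ _m : Fin c, 2 ≤ ∑ m, d m := Finset.sum_le_sum fun m _ => hd m
  rw [Finset.sum_const, Finset.card_univ, Fintype.card_fin, smul_eq_mul] at h1
  have hc : c ≤ 3 := by omega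
  interval_cases c
  · rw [Finset.univ_eq_empty, Finset.sum_empty] at hs
    omega
  · obtain rfl : n = 3 := by omega
    refine H95.ratCurve4 k d ?_ F hF ha
    rw [Fin.sum_univ_one] at hs
    exact hs
  · obtain rfl : n = 4 := by omega
    rw [Fin.sum_univ_two] at hs
    have h2 := hd 0
    have h3 := hd 1
    by_cases h4 : d 0 = 2
    · exact H95.K23.ratCurve23 k d h4 (by omega) F hF ha
    · exact ratCurve32 k d (by omega) (by omega) F hF ha
  · obtain rfl : n = 5 := by omega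
    rw [Fin.sum_univ_three] at hs
    have h2 := hd 0
    have h3 := hd 1
    have h4 := hd 2
    refine h222 k d (fun m => ?_) F hF ha
    fin_cases m
    · show d 0 = 2
      omega
    · show d 1 = 2
      omega
    · show d 2 = 2
      omega

section

attribute [local instance] MvPolynomial.gradedAlgebra

/-- The very general K3 surfaces are neither groupless nor arithmetically hyperbolic. -/
theorem k3_of (h222 : Rat222Statement) : Edge.H46.K3Statement := by
  intro k _ _ _ n c d F hF ha hd hn hs Y i hi hiY hset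
  exact H87.neither k n d F hF (ratCurve_of h222 k n c d F hF ha hd hn hs) Y i hi hiY hset

/-- T3 without the threefolds with `K = O(1)`. -/
theorem t3_of (h222 : Rat222Statement) (k : Type) [Field k] [IsAlgClosed k] [CharZero k]
    (n c : ℕ) (d : Fin c → ℕ) (F : Fin c → MvPolynomial (Fin (n + 1)) k)
    (hF : ∀ m, (F m).IsHomogeneous (d m))
    (ha : AlgebraicIndependent ℤ (fun s : Ix (M := n) d => MvPolynomial.coeff s.1.2 (F s.1.1)))
    (hd : ∀ m, 2 ≤ d m) (hdim : c + 2 ≤ n) (hT2 : ¬ (n = c + 3 ∧ ∑ m, d m = n + 2))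
    (Y : Over (Spec (CommRingCat.of k))) (i : Y.left ⟶ Ell.PP k n) (hi : IsClosedImmersion i)
    (hiY : i ≫ projStr k n = Y.hom)
    (hset : ∀ p : Ell.PP k n, (∀ m, F m ∈ p.asHomogeneousIdeal) ↔ p ∈ Set.range i.base) :
    (IsGL k Y ↔ IsAH k Y) ∧
    (IsGL k Y ↔ 2 * n ≤ c + ∑ m, d m + 1 ∧ ¬ (n = c + 2 ∧ ∑ m, d m = n + 1)) :=
  Edge.H46.t3G (fun n c e d j0 he hd hs hn => Edge.C2.H59.hbeAll n c e d j0 he hd hs hn)
    (k3_of h222) k n c d F hF ha hd hdim hT2 Y i hi hiY hset

end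

end Pool.Agent.LX.H46
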